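import Pool.Agent.Helper30.PG.Rad
import Pool.Agent.Helper79.GR.NC
import Pool.Agent.Helper79.GQ.LA

/-!
# Project PG: note 3148, step (2): the horofunctions reach the time constant in every direction
-/

set_option autoImplicit false

namespace Pool.Agent.Helper30.PG

open MeasureTheory ProbabilityTheory Filter Pool.Agent.Helper79.GR Pool.Agent.Helper79.GQ
open scoped Topology NNReal ENNReal

/-- a stationary integrable metric `S` on `ℤ ^ d` with time constant `u` -/
structure Stat {Ω : Type*} [MeasurableSpace Ω] (P : Measure Ω) {d : ℕ}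
    (S : Ω → V d → V d → ℝ) (u : (Fin d → ℝ) → ℝ) : Prop where
  prob : IsProbabilityMeasure P
  meas : ∀ x y, Measurable fun ω => S ω x y
  nonneg : ∀ ω x y, 0 ≤ S ω x y
  symm : ∀ ω x y, S ω x y = S ω y x
  tri : ∀ ω x y z, S ω x z ≤ S ω x y + S ω y z
  int : ∀ x y, Integrable (fun ω => S ω x y) P
  stat : ∀ z, P.map (fun ω (p : V d × V d) => S ω (p.1 + z) (p.2 + z)) =
    P.map (fun ω (p : V d × V d) => S ω p.1 p.2)
  one : ∀ x : V d, Tendsto (fun s : ℕ => ∫ ω, |S ω 0 (s • x) / s - u (rv x)| ∂P) atTop (𝓝 0)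
  low : ∀ x : V d, u (rv x) ≤ ∫ ω, S ω 0 x ∂P
  cont : Continuous u
  bdd : ∃ C : ℝ, ∀ x, u x ≤ C * ‖x‖
  smul : ∀ t : ℝ, 0 ≤ t → ∀ x, u (t • x) = t * u x

section

variable {Ω : Type*} [MeasurableSpace Ω] {P : Measure Ω} {d : ℕ} {S : Ω → V d → V d → ℝ}
  {u : (Fin d → ℝ) → ℝ}

theorem Stat.meas_proc (h : Stat P S u) (z : V d) :
    Measurable fun ω (p : V d × V d) => S ω (p.1 + z) (p.2 + z) :=
  measurable_pi_lambda _ fun _ => h.meas _ _

theorem Stat.meas_proc0 (h : Stat P S u) :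
    Measurable fun ω (p : V d × V d) => S ω p.1 p.2 :=
  measurable_pi_lambda _ fun _ => h.meas _ _

/-- functions of the shifted metric have the same expectation -/
theorem Stat.integral_shift (h : Stat P S u) (z : V d) {f : (V d × V d → ℝ) → ℝ}
    (hf : Measurable f) :
    ∫ ω, f (fun p => S ω (p.1 + z) (p.2 + z)) ∂P = ∫ ω, f (fun p => S ω p.1 p.2) ∂P := by
  rw [← integral_map (h.meas_proc z).aemeasurable hf.aestronglyMeasurable, h.stat z,
    integral_map h.meas_proc0.aemeasurable hf.aestronglyMeasurable]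

theorem Stat.mean (h : Stat P S u) (x y : V d) :
    ∫ ω, S ω x y ∂P = ∫ ω, S ω 0 (y - x) ∂P := by
  have h1 := h.integral_shift x (f := fun F => F ((0 : V d), y - x)) (measurable_pi_apply _)
  simpa using h1

theorem Stat.abs_mean (h : Stat P S u) (x y : V d) (c : ℝ) :
    ∫ ω, |S ω x y - c| ∂P = ∫ ω, |S ω 0 (y - x) - c| ∂P := by
  have h1 := h.integral_shift x (f := fun F => |F ((0 : V d), y - x) - c|)
    (((measurable_pi_apply _).sub measurable_const).abs)
  simpa using h1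

theorem Stat.self (h : Stat P S u) (ω : Ω) (x : V d) (c : ℝ) (hc : S ω x x ≤ c) : 0 ≤ c :=
  (h.nonneg ω x x).trans hc

/-- the gap between the metric and the increments towards the targets `z + r s x` -/
noncomputable def gapr (S : Ω → V d → V d → ℝ) (x z : V d) (s r : ℕ) (ω : Ω) : ℝ :=
  S ω (z - s • x) z - (S ω (z - s • x) (z + (r * s) • x) - S ω z (z + (r * s) • x))

theorem Stat.gapr_nonneg (h : Stat P S u) (x z : V d) (s r : ℕ) (ω : Ω) :
    0 ≤ gapr S x z s r ω := by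
  unfold gapr
  have := h.tri ω (z - s • x) z (z + (r * s) • x)
  linarith

theorem Stat.gapr_meas (h : Stat P S u) (x z : V d) (s r : ℕ) :
    Measurable (gapr S x z s r) :=
  (h.meas _ _).sub ((h.meas _ _).sub (h.meas _ _))

theorem Stat.gapr_int (h : Stat P S u) (x z : V d) (s r : ℕ) :
    Integrable (gapr S x z s r) P :=
  (h.int _ _).sub ((h.int _ _).sub (h.int _ _))

/-- the mean of the gap telescopes in `r` -/
theorem Stat.gapr_mean (h : Stat P S u) (x z : V d) (s r : ℕ) :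
    ∫ ω, gapr S x z s r ω ∂P = ∫ ω, S ω 0 (s • x) ∂P -
      (∫ ω, S ω 0 (((r + 1) * s) • x) ∂P - ∫ ω, S ω 0 ((r * s) • x) ∂P) := by
  have e0 : ∫ ω, gapr S x z s r ω ∂P = ∫ ω, S ω (z - s • x) z ∂P -
      (∫ ω, S ω (z - s • x) (z + (r * s) • x) ∂P - ∫ ω, S ω z (z + (r * s) • x) ∂P) := by
    rw [← integral_sub (h.int _ _) (h.int _ _)]
    exact integral_sub (h.int _ _) ((h.int _ _).sub (h.int _ _))
  rw [e0, h.mean (z - s • x) z, h.mean (z - s • x) _, h.mean z _]
  have e1 : z - (z - s • x) = s • x := by abel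
  have e2 : z + (r * s) • x - (z - s • x) = ((r + 1) * s) • x := by
    rw [add_mul, one_mul, add_smul]
    abel
  have e3 : z + (r * s) • x - z = (r * s) • x := by abel
  rw [e1, e2, e3]

/-- the liminf of the gap -/
noncomputable def Dg (S : Ω → V d → V d → ℝ) (x z : V d) (s : ℕ) (ω : Ω) : ℝ≥0∞ :=
  liminf (fun r : ℕ => ENNReal.ofReal (gapr S x z s r ω)) atTop

/-- the mean gap is at most `E S(0, sx) - s u(x)` -/
theorem Stat.lintegral_Dg (h : Stat P S u) (x z : V d) (s : ℕ) :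
    ∫⁻ ω, Dg S x z s ω ∂P ≤ ENNReal.ofReal (∫ ω, S ω 0 (s • x) ∂P - s * u (rv x)) := by
  set M : ℕ → ℝ := fun r => ∫ ω, S ω 0 ((r * s) • x) ∂P with hM
  have hMlow : ∀ r : ℕ, (r * s : ℝ) * u (rv x) ≤ M r := by
    intro r
    have h1 := h.low ((r * s) • x)
    rw [Pool.Agent.Helper79.GR.rv_nsmul, h.smul _ (by positivity)] at h1
    push_cast at h1
    exact h1
  refine (lintegral_liminf_le fun r => (h.gapr_meas x z s r).ennreal_ofReal).trans ?_
  have h2 : ∀ r, ∫⁻ ω, ENNReal.ofReal (gapr S x z s r ω) ∂P =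
      ENNReal.ofReal (∫ ω, S ω 0 (s • x) ∂P - (M (r + 1) - M r)) := by
    intro r
    rw [← ofReal_integral_eq_lintegral_ofReal (h.gapr_int x z s r)
      (Eventually.of_forall (h.gapr_nonneg x z s r)), h.gapr_mean]
  simp only [h2]
  -- for every `ε` the increments are `≥ s u(x) - ε` infinitely often
  have h3 : ∀ ε : ℝ, 0 < ε → ∃ᶠ r : ℕ in atTop, s * u (rv x) - ε ≤ M (r + 1) - M r := by
    intro ε hε hcon
    rw [eventually_atTop] at hcon
    obtain ⟨r₀, hr₀⟩ := hcon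
    have h4 : ∀ n : ℕ, M (r₀ + n) ≤ M r₀ + n * (s * u (rv x) - ε) := by
      intro n
      induction n with
      | zero => simp
      | succ n ih =>
        have h5 := hr₀ (r₀ + n) (by omega)
        push Not at h5
        rw [← add_assoc]
        push_cast
        linarith
    obtain ⟨n, hn⟩ := exists_nat_gt ((M r₀ - r₀ * s * u (rv x)) / ε)
    have h5 := hMlow (r₀ + n)
    have h6 := h4 n
    push_cast at h5
    rw [div_lt_iff₀ hε] at hn
    nlinarith
  refine ENNReal.le_of_forall_pos_le_add fun ε hε _ => ?_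
  have h4 : ∃ᶠ r : ℕ in atTop, ENNReal.ofReal (∫ ω, S ω 0 (s • x) ∂P - (M (r + 1) - M r)) ≤
      ENNReal.ofReal (∫ ω, S ω 0 (s • x) ∂P - s * u (rv x)) + ε := by
    refine (h3 ε hε).mono fun r hr => ?_
    rw [← ENNReal.ofReal_coe_nnreal]
    refine le_trans (ENNReal.ofReal_le_ofReal ?_) ENNReal.ofReal_add_le
    linarith
  exact liminf_le_of_frequently_le' h4

/-- the error at the scale `s` in the direction `x` at the point `z` -/
noncomputable def Er (S : Ω → V d → V d → ℝ) (u : (Fin d → ℝ) → ℝ) (x z : V d) (s : ℕ) (ω : Ω) :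
    ℝ≥0∞ :=
  Dg S x z s ω + ENNReal.ofReal |S ω (z - s • x) z - s * u (rv x)|

theorem Stat.Dg_meas (h : Stat P S u) (x z : V d) (s : ℕ) : Measurable (Dg S x z s) :=
  Measurable.liminf fun r => (h.gapr_meas x z s r).ennreal_ofReal

theorem Stat.Er_meas (h : Stat P S u) (x z : V d) (s : ℕ) : Measurable (Er S u x z s) :=
  (h.Dg_meas x z s).add (((h.meas _ _).sub measurable_const).abs.ennreal_ofReal)

theorem Stat.lintegral_Er (h : Stat P S u) (x z : V d) (s : ℕ) (hs : 0 < s) :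
    ∫⁻ ω, Er S u x z s ω / s ∂P ≤
      2 * ENNReal.ofReal (∫ ω, |S ω 0 (s • x) / s - u (rv x)| ∂P) := by
  have := h.prob
  have hs' : (0 : ℝ) < s := by exact_mod_cast hs
  have h0 : ∫ ω, |S ω 0 (s • x) - s * u (rv x)| ∂P =
      s * ∫ ω, |S ω 0 (s • x) / s - u (rv x)| ∂P := by
    rw [← integral_const_mul]
    refine integral_congr_ae (Eventually.of_forall fun ω => ?_)
    simp only
    rw [← abs_of_pos hs', ← abs_mul, abs_of_pos hs', mul_sub, mul_div_cancel₀ _ hs'.ne']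
  have hI : Integrable (fun ω => |S ω 0 (s • x) - s * u (rv x)|) P :=
    ((h.int 0 (s • x)).sub (integrable_const _)).abs
  have h1 : ∫⁻ ω, ENNReal.ofReal |S ω (z - s • x) z - s * u (rv x)| ∂P =
      ENNReal.ofReal (s * ∫ ω, |S ω 0 (s • x) / s - u (rv x)| ∂P) := by
    have h5 : Integrable (fun ω => |S ω (z - s • x) z - s * u (rv x)|) P :=
      ((h.int (z - s • x) z).sub (integrable_const _)).abs
    rw [← ofReal_integral_eq_lintegral_ofReal h5
      (Eventually.of_forall fun ω => abs_nonneg _), h.abs_mean, ← h0]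
    rw [sub_sub_cancel]
  have h2 : ∫ ω, S ω 0 (s • x) ∂P - s * u (rv x) ≤
      s * ∫ ω, |S ω 0 (s • x) / s - u (rv x)| ∂P := by
    rw [← h0]
    have h3 : ∫ ω, S ω 0 (s • x) ∂P - s * u (rv x) = ∫ ω, (S ω 0 (s • x) - s * u (rv x)) ∂P := by
      rw [integral_sub (h.int _ _) (integrable_const _)]
      simp
    rw [h3]
    exact integral_mono ((h.int _ _).sub (integrable_const _)) hI fun ω => le_abs_self _
  have h3 : ∫⁻ ω, Er S u x z s ω ∂P ≤
      2 * ENNReal.ofReal (s * ∫ ω, |S ω 0 (s • x) / s - u (rv x)| ∂P) := by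
    unfold Er
    rw [lintegral_add_left (h.Dg_meas x z s), h1, two_mul]
    exact add_le_add_left ((h.lintegral_Dg x z s).trans (ENNReal.ofReal_le_ofReal h2)) _
  have hs'' : (s : ℝ≥0∞) ≠ 0 := by exact_mod_cast hs.ne'
  simp_rw [ENNReal.div_eq_inv_mul]
  rw [lintegral_const_mul _ (h.Er_meas x z s)]
  calc (s : ℝ≥0∞)⁻¹ * ∫⁻ ω, Er S u x z s ω ∂P
      ≤ (s : ℝ≥0∞)⁻¹ * (2 * ENNReal.ofReal (s * ∫ ω, |S ω 0 (s • x) / s - u (rv x)| ∂P)) :=
        mul_le_mul_right h3 _
    _ = 2 * ENNReal.ofReal (∫ ω, |S ω 0 (s • x) / s - u (rv x)| ∂P) := by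
        rw [ENNReal.ofReal_mul hs'.le, ENNReal.ofReal_natCast]
        rw [show (s : ℝ≥0∞)⁻¹ * (2 * ((s : ℝ≥0∞) * ENNReal.ofReal
          (∫ ω, |S ω 0 (s • x) / s - u (rv x)| ∂P))) = ((s : ℝ≥0∞)⁻¹ * s) * (2 * ENNReal.ofReal
          (∫ ω, |S ω 0 (s • x) / s - u (rv x)| ∂P)) by ring]
        rw [ENNReal.inv_mul_cancel hs'' (ENNReal.natCast_ne_top s), one_mul]

end

end Pool.Agent.Helper30.PG
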