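import Pool.Agent.Helper30.PG.Coc1

/-!
# Project PG: note 3148: if there are only finitely many horofunctions (with positive probability) then
the time constant is the maximum of finitely many linear functionals
-/

set_option autoImplicit false

namespace Pool.Agent.Helper30.PG

open MeasureTheory ProbabilityTheory Filter Pool.Agent.Helper79.GR Pool.Agent.Helper79.GQ
open scoped Topology NNReal ENNReal

/-- `B 0, .., B (k - 1)` are all the horofunctions of the metric `S` -/
structure Horo {d : ℕ} (S : V d → V d → ℝ) {k : ℕ} (B : Fin k → V d → V d → ℝ) : Prop where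
  add : ∀ c x y z, B c x y + B c y z = B c x z
  le : ∀ c x y, B c x y ≤ S x y
  lim : ∀ x z (y : ℕ → V d), Tendsto (fun r => n1 (y r)) atTop atTop →
    ∃ c, ∀ ε : ℝ, 0 < ε → ∀ᶠ r in atTop, S x (y r) - S z (y r) ≤ B c x z + ε

theorem Horo.self {d : ℕ} {S : V d → V d → ℝ} {k : ℕ} {B : Fin k → V d → V d → ℝ}
    (h : Horo S B) (c : Fin k) (x : V d) : B c x x = 0 := by
  have := h.add c x x x
  linarith

section

variable {Ω : Type*} [MeasurableSpace Ω] {P : Measure Ω} {d : ℕ} {S : Ω → V d → V d → ℝ}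
  {u : (Fin d → ℝ) → ℝ}

/-- one of the horofunctions nearly reaches the metric -/
theorem Stat.exists_Dg (_ : Stat P S u) {ω : Ω} {k : ℕ} (hk : 0 < k)
    {B : Fin k → V d → V d → ℝ} (hB : Horo (S ω) B) (x z : V d) (s : ℕ) (hs : 0 < s) :
    ∃ c, ENNReal.ofReal (S ω (z - s • x) z - B c (z - s • x) z) ≤ Dg S x z s ω := by
  by_cases hx : x = 0
  · subst hx
    refine ⟨⟨0, hk⟩, ?_⟩
    rw [smul_zero, sub_zero, hB.self, sub_zero]
    unfold Dg gapr
    simp only [smul_zero, sub_zero, add_zero, sub_self]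
    rw [liminf_const]
  have hx1 : 0 < n1 x := by
    rcases (n1_nonneg x).lt_or_eq with h1 | h1
    · exact h1
    · exact absurd (n1_eq_zero.1 h1.symm) hx
  have htend : Tendsto (fun r : ℕ => n1 (z + (r * s) • x)) atTop atTop := by
    have h1 : ∀ r : ℕ, (r : ℝ) * (s * n1 x) - n1 z ≤ n1 (z + (r * s) • x) := by
      intro r
      have h2 := n1_add_le (z + (r * s) • x) (-z)
      rw [add_neg_cancel_comm, n1_nsmul, n1_neg] at h2
      push_cast at h2
      linarith
    refine tendsto_atTop_mono h1 ?_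
    have h2 : Tendsto (fun r : ℕ => (r : ℝ) * (s * n1 x)) atTop atTop :=
      tendsto_natCast_atTop_atTop.atTop_mul_const (by positivity)
    exact tendsto_atTop_add_const_right _ (-n1 z) h2
  obtain ⟨c, hc⟩ := hB.lim (z - s • x) z _ htend
  refine ⟨c, ?_⟩
  refine ENNReal.le_of_forall_pos_le_add fun ε hε _ => ?_
  have h1 := hc ε hε
  have h2 : ENNReal.ofReal (S ω (z - s • x) z - B c (z - s • x) z - ε) ≤ Dg S x z s ω := by
    refine le_liminf_of_le (by isBoundedDefault) ?_
    refine h1.mono fun r hr => ENNReal.ofReal_le_ofReal ?_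
    unfold gapr
    linarith
  calc ENNReal.ofReal (S ω (z - s • x) z - B c (z - s • x) z)
      ≤ ENNReal.ofReal (S ω (z - s • x) z - B c (z - s • x) z - ε) + ENNReal.ofReal ε := by
        refine le_trans (ENNReal.ofReal_le_ofReal ?_) ENNReal.ofReal_add_le
        linarith
    _ ≤ Dg S x z s ω + ε := by
        rw [ENNReal.ofReal_coe_nnreal]
        exact add_le_add_left h2 _

/-- the bounds for the horofunctions in terms of the error -/
theorem Stat.horo_le (_ : Stat P S u) {ω : Ω} {k : ℕ} 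
    {B : Fin k → V d → V d → ℝ} (hB : Horo (S ω) B) (x z : V d) (s : ℕ) (c : Fin k)
    (e : ℝ) (he : 0 ≤ e) (hE : Er S u x z s ω ≤ ENNReal.ofReal e) :
    B c (z - s • x) z ≤ s * u (rv x) + e := by
  have h1 : ENNReal.ofReal |S ω (z - s • x) z - s * u (rv x)| ≤ ENNReal.ofReal e :=
    le_trans (by unfold Er; exact le_add_self) hE
  rw [ENNReal.ofReal_le_ofReal_iff he] at h1
  have h2 := hB.le c (z - s • x) z
  have h3 := (abs_le.1 h1).2
  linarith

theorem Stat.exists_horo (h : Stat P S u) {ω : Ω} {k : ℕ} (hk : 0 < k)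
    {B : Fin k → V d → V d → ℝ} (hB : Horo (S ω) B) (x z : V d) (s : ℕ) (hs : 0 < s)
    (e : ℝ) (he : 0 ≤ e) (hE : Er S u x z s ω ≤ ENNReal.ofReal e) :
    ∃ c, s * u (rv x) - 2 * e ≤ B c (z - s • x) z := by
  obtain ⟨c, hc⟩ := h.exists_Dg hk hB x z s hs
  refine ⟨c, ?_⟩
  have h1 : ENNReal.ofReal |S ω (z - s • x) z - s * u (rv x)| ≤ ENNReal.ofReal e :=
    le_trans (by unfold Er; exact le_add_self) hE
  have h2 : ENNReal.ofReal (S ω (z - s • x) z - B c (z - s • x) z) ≤ ENNReal.ofReal e :=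
    hc.trans (le_trans (by unfold Er; exact le_self_add) hE)
  rw [ENNReal.ofReal_le_ofReal_iff he] at h1 h2
  have h3 := (abs_le.1 h1).1
  linarith

/-- the integer part of `s v` for a rational vector `v` -/
def iv {d : ℕ} (s : ℕ) (v : Fin d → ℚ) : V d := fun i => ⌊(s : ℚ) * v i⌋

/-- common denominators -/
theorem exists_den {d : ℕ} (v w : Fin d → ℚ) : ∃ (N : ℕ) (p q : V d), 0 < N ∧
    (∀ i, v i = p i / N) ∧ ∀ i, w i = q i / N := by
  set N : ℕ := (∏ i, (v i).den) * ∏ i, (w i).den with hN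
  have hpos : 0 < N := Nat.mul_pos (Finset.prod_pos fun i _ => (v i).den_pos)
    (Finset.prod_pos fun i _ => (w i).den_pos)
  have hN0 : (N : ℚ) ≠ 0 := by exact_mod_cast hpos.ne'
  have key : ∀ r : ℚ, r.den ∣ N → ∃ m : ℤ, r = m / N := by
    rintro r ⟨t, ht⟩
    refine ⟨r.num * t, ?_⟩
    rw [eq_div_iff hN0, ht]
    push_cast
    rw [← mul_assoc, Rat.mul_den_eq_num]
  have hv : ∀ i, ∃ m : ℤ, v i = m / N := fun i =>
    key _ ((Finset.dvd_prod_of_mem (fun i => (v i).den) (Finset.mem_univ i)).mul_right _)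
  have hw : ∀ i, ∃ m : ℤ, w i = m / N := fun i =>
    key _ ((Finset.dvd_prod_of_mem (fun i => (w i).den) (Finset.mem_univ i)).mul_left _)
  choose p hp using hv
  choose q hq using hw
  exact ⟨N, p, q, hpos, hp, hq⟩

theorem iv_eq {d : ℕ} {N t : ℕ} (hN : 0 < N) {v : Fin d → ℚ} {p : V d}
    (hp : ∀ i, v i = p i / N) : iv (N * t) v = t • p := by
  have hN0 : (N : ℚ) ≠ 0 := by exact_mod_cast hN.ne'
  funext i
  unfold iv
  rw [hp i]
  have h1 : ((N * t : ℕ) : ℚ) * ((p i : ℚ) / N) = ((t * p i : ℤ) : ℚ) := by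
    push_cast
    field_simp
  rw [h1, Int.floor_intCast]
  simp

/-- deterministic part: one configuration along which all errors vanish -/
theorem lin_of_seq (h : Stat P S u) {ω : Ω} {k : ℕ} (hk : 0 < k)
    {B : Fin k → V d → V d → ℝ} (hB : Horo (S ω) B) (φ : ℕ → ℕ) (hφ : StrictMono φ)
    (hlim : ∀ (N : ℕ) (p q : V d), 0 < N → Tendsto (fun j => Er S u (p - q)
      (-(((φ j).factorial / N) • q)) ((φ j).factorial / N) ω / (((φ j).factorial / N : ℕ) : ℝ≥0∞))
      atTop (𝓝 0)) :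
    ∃ L : Fin k → (Fin d → ℝ) →L[ℝ] ℝ, (∀ c x, L c x ≤ u x) ∧ ∀ x, ∃ c, L c x = u x := by
  set s : ℕ → ℕ := fun j => (φ j).factorial with hs
  have hspos : ∀ j, 0 < s j := fun j => Nat.factorial_pos _
  set β : ℕ → Fin k → (Fin d → ℚ) → ℝ := fun j c v => B c (-(iv (s j) v)) 0 / s j with hβ
  -- the two inequalities
  have key : ∀ (v w : Fin d → ℚ) (ε : ℝ), 0 < ε → ∀ᶠ j in atTop,
      (∀ c, β j c v - β j c w ≤ u (qv v - qv w) + ε) ∧
      ∃ c, u (qv v - qv w) - ε ≤ β j c v - β j c w := by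
    intro v w ε hε
    obtain ⟨N, p, q, hN, hp, hq⟩ := exists_den v w
    have hN0 : (0 : ℝ) < N := by exact_mod_cast hN
    have h1 := hlim N p q hN
    have h2 : ∀ᶠ j in atTop, Er S u (p - q)
        (-(((φ j).factorial / N) • q)) ((φ j).factorial / N) ω /
          (((φ j).factorial / N : ℕ) : ℝ≥0∞) < ENNReal.ofReal (N * ε / 2) :=
      h1.eventually (gt_mem_nhds (ENNReal.ofReal_pos.2 (by positivity)))
    filter_upwards [h2, eventually_ge_atTop N] with j hj hjN
    have hdvd : N ∣ s j := (Nat.dvd_factorial hN (le_trans hjN (hφ.id_le j)))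
    obtain ⟨t, ht⟩ := hdvd
    have ht' : (φ j).factorial / N = t := by
      rw [show (φ j).factorial = s j from rfl, ht, Nat.mul_div_cancel_left _ hN]
    have htpos : 0 < t := by
      rcases Nat.eq_zero_or_pos t with h3 | h3
      · rw [h3, mul_zero] at ht
        exact absurd ht (hspos j).ne'
      · exact h3
    have ht0 : (0 : ℝ) < t := by exact_mod_cast htpos
    rw [ht'] at hj
    have hE : Er S u (p - q) (-(t • q)) t ω ≤ ENNReal.ofReal (t * (N * ε / 2)) := by
      have h3 : (t : ℝ≥0∞) ≠ 0 := by exact_mod_cast htpos.ne'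
      rw [ENNReal.ofReal_mul ht0.le, ENNReal.ofReal_natCast, mul_comm]
      exact (ENNReal.div_le_iff h3 (ENNReal.natCast_ne_top t)).1 hj.le
    have e1 : -(t • q) - t • (p - q) = -(t • p) := by
      rw [smul_sub]; abel
    have hev : iv (s j) v = t • p := by rw [ht]; exact iv_eq hN hp
    have hew : iv (s j) w = t • q := by rw [ht]; exact iv_eq hN hq
    have hdiff : ∀ c, β j c v - β j c w = B c (-(t • p)) (-(t • q)) / (N * t) := by
      intro c
      simp only [hβ, hev, hew]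
      rw [← sub_div, ht]
      push_cast
      congr 1
      have := hB.add c (-(t • p)) (-(t • q)) 0
      linarith
    have hu : u (qv v - qv w) = u (rv (p - q)) / N := by
      have h3 : qv v - qv w = (1 / (N : ℝ)) • rv (p - q) := by
        funext i
        simp only [qv, Pi.sub_apply, Pi.smul_apply, smul_eq_mul, rv]
        rw [hp i, hq i]
        push_cast
        field_simp
      rw [h3, h.smul _ (by positivity)]
      field_simp
    have hNt : (0 : ℝ) < N * t := by positivity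
    refine ⟨fun c => ?_, ?_⟩
    · have h3 := h.horo_le hB (p - q) (-(t • q)) t c _ (by positivity) hE
      rw [e1] at h3
      rw [hdiff, hu, div_le_iff₀ hNt]
      calc B c (-(t • p)) (-(t • q)) ≤ t * u (rv (p - q)) + t * (N * ε / 2) := h3
        _ ≤ (u (rv (p - q)) / N + ε) * (N * t) := by
            have h4 : (u (rv (p - q)) / N + ε) * (N * t) =
                t * u (rv (p - q)) + t * (N * ε) := by
              field_simp
            rw [h4]
            have h5 : 0 ≤ t * (N * ε) := by positivity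
            linarith
    · obtain ⟨c, hc⟩ := h.exists_horo hk hB (p - q) (-(t • q)) t htpos _ (by positivity) hE
      refine ⟨c, ?_⟩
      rw [e1] at hc
      rw [hdiff, hu, le_div_iff₀ hNt]
      calc (u (rv (p - q)) / N - ε) * (N * t) = t * u (rv (p - q)) - 2 * (t * (N * ε / 2)) := by
            field_simp
        _ ≤ _ := hc
  -- the ultrafilter limit
  set 𝒰 : Ultrafilter ℕ := hyperfilter ℕ with h𝒰
  have hle𝒰 : (𝒰 : Filter ℕ) ≤ atTop := by
    rw [← Nat.cofinite_eq_atTop]
    exact hyperfilter_le_cofinite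
  have hβ0 : ∀ j c, β j c 0 = 0 := by
    intro j c
    have h3 : iv (s j) (0 : Fin d → ℚ) = 0 := by
      funext i
      simp [iv]
    simp only [hβ, h3, neg_zero, hB.self, zero_div]
  have hbd : ∀ c v, ∃ b : ℝ, Tendsto (fun j => β j c v) 𝒰 (𝓝 b) := by
    intro c v
    have h3 : ∀ᶠ j in (𝒰 : Filter ℕ), β j c v ∈ Set.Icc (-(u (qv 0 - qv v) + 1))
        (u (qv v - qv 0) + 1) := by
      filter_upwards [hle𝒰 (key v 0 1 one_pos), hle𝒰 (key 0 v 1 one_pos)] with j hj1 hj2
      have h4 := hj1.1 c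
      have h5 := hj2.1 c
      rw [hβ0, sub_zero] at h4
      rw [hβ0, zero_sub] at h5
      exact ⟨by linarith, h4⟩
    have h4 : ((𝒰.map fun j => β j c v : Ultrafilter ℝ) : Filter ℝ) ≤ 𝓟 (Set.Icc
        (-(u (qv 0 - qv v) + 1)) (u (qv v - qv 0) + 1)) := le_principal_iff.2 h3
    obtain ⟨b, _, hb⟩ := isCompact_Icc.ultrafilter_le_nhds _ h4
    exact ⟨b, hb⟩
  choose g hg using hbd
  obtain ⟨C, hC⟩ := h.bdd
  refine lin_of_rat g h.cont hC h.smul (fun c v w => ?_) (fun v w => ?_)
  · refine le_of_forall_pos_le_add fun ε hε => ?_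
    exact le_of_tendsto ((hg c v).sub (hg c w)) (((key v w ε hε).filter_mono hle𝒰).mono
      fun j hj => hj.1 c)
  · have h3 : ∀ ε : ℝ, 0 < ε → ∃ c, u (qv v - qv w) - ε ≤ g c v - g c w := by
      intro ε hε
      have h4 : ∃ᶠ j in (𝒰 : Filter ℕ), ∃ c, u (qv v - qv w) - ε ≤ β j c v - β j c w :=
        (((key v w ε hε).filter_mono hle𝒰).mono fun j hj => hj.2).frequently
      rw [frequently_exists] at h4
      obtain ⟨c, hc⟩ := h4
      exact ⟨c, ge_of_tendsto ((hg c v).sub (hg c w)) (Ultrafilter.frequently_iff_eventually.1 hc)⟩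
    have h4 : ∃ᶠ n : ℕ in atTop, ∃ c, u (qv v - qv w) - 1 / ((n : ℝ) + 1) ≤ g c v - g c w :=
      (Eventually.of_forall fun n => h3 _ (by positivity)).frequently
    rw [frequently_exists] at h4
    obtain ⟨c, hc⟩ := h4
    refine ⟨c, ?_⟩
    by_contra h5
    push Not at h5
    have h6 : Tendsto (fun n : ℕ => u (qv v - qv w) - 1 / ((n : ℝ) + 1)) atTop
        (𝓝 (u (qv v - qv w) - 0)) := tendsto_const_nhds.sub tendsto_one_div_add_atTop_nhds_zero_nat
    rw [sub_zero] at h6
    exact hc ((h6.eventually (eventually_gt_nhds h5)).mono fun n hn => not_le.2 hn)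

/-- the main theorem: finitely many horofunctions with positive probability -/
theorem lin_of_horo (h : Stat P S u) {E : Set Ω} (hE : P E ≠ 0) {k : ℕ} (hk : 0 < k)
    (hB : ∀ ω ∈ E, ∃ B : Fin k → V d → V d → ℝ, Horo (S ω) B) :
    ∃ L : Fin k → (Fin d → ℝ) →L[ℝ] ℝ, (∀ c x, L c x ≤ u x) ∧ ∀ x, ∃ c, L c x = u x := by
  obtain ⟨e, he⟩ := exists_surjective_nat (ℕ × V d × V d)
  set W : ℕ → ℕ × V d × V d → Ω → ℝ≥0∞ := fun i m ω => Er S u (m.2.1 - m.2.2)
    (-((i.factorial / m.1) • m.2.2)) (i.factorial / m.1) ω / ((i.factorial / m.1 : ℕ) : ℝ≥0∞)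
    with hW
  -- the errors have small integrals
  have hdiv : ∀ N : ℕ, 0 < N → Tendsto (fun i : ℕ => i.factorial / N) atTop atTop := by
    intro N hN
    exact (Nat.tendsto_div_const_atTop hN.ne').comp (tendsto_atTop_mono Nat.self_le_factorial tendsto_id)
  have hint : ∀ m : ℕ × V d × V d, 0 < m.1 → Tendsto (fun i => ∫⁻ ω, W i m ω ∂P) atTop (𝓝 0) := by
    intro m hm
    have h1 := (h.one (m.2.1 - m.2.2)).comp (hdiv m.1 hm)
    have h2 : Tendsto (fun i : ℕ => 2 * ENNReal.ofReal (∫ ω, |S ω 0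
        ((i.factorial / m.1) • (m.2.1 - m.2.2)) / ((i.factorial / m.1 : ℕ) : ℝ) -
          u (rv (m.2.1 - m.2.2))| ∂P)) atTop (𝓝 0) := by
      have h3 := ENNReal.Tendsto.const_mul (a := 2) (ENNReal.tendsto_ofReal h1)
        (Or.inr (by norm_num))
      rw [ENNReal.ofReal_zero, mul_zero] at h3
      exact h3
    refine tendsto_of_tendsto_of_tendsto_of_le_of_le' tendsto_const_nhds h2
      (Eventually.of_forall fun i => zero_le) ?_
    filter_upwards [(hdiv m.1 hm).eventually_ge_atTop 1] with i hi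
    exact h.lintegral_Er _ _ _ hi
  -- the subsequence
  have hev : ∀ j : ℕ, ∀ᶠ i in atTop, ∀ l ∈ Finset.range (j + 1), 0 < (e l).1 →
      ∫⁻ ω, W i (e l) ω ∂P ≤ (1 / 2 : ℝ≥0∞) ^ j := by
    intro j
    rw [Finset.eventually_all]
    intro l _
    by_cases hl : 0 < (e l).1
    · refine ((hint (e l) hl).eventually (gt_mem_nhds ?_)).mono fun i hi _ => hi.le
      exact ENNReal.pow_pos (by norm_num) _
    · exact Eventually.of_forall fun i hi => absurd hi hl
  obtain ⟨φ, hφ, hφ'⟩ := extraction_forall_of_eventually hev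
  have hae : ∀ᵐ ω ∂P, ∀ l, 0 < (e l).1 → Tendsto (fun j => W (φ j) (e l) ω) atTop (𝓝 0) := by
    rw [ae_all_iff]
    intro l
    by_cases hl : 0 < (e l).1
    · have h1 : ∫⁻ ω, ∑' j, W (φ (j + l)) (e l) ω ∂P ≠ ∞ := by
        rw [lintegral_tsum fun j => ((h.Er_meas _ _ _).div_const _).aemeasurable]
        refine ne_top_of_le_ne_top (b := ∑' j : ℕ, (1 / 2 : ℝ≥0∞) ^ j) ?_
          (ENNReal.tsum_le_tsum fun j => ?_)
        · rw [ENNReal.tsum_geometric]
          simp
        · refine (hφ' (j + l) l (Finset.mem_range.2 (by omega)) hl).trans ?_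
          exact pow_le_pow_of_le_one zero_le (by norm_num) (by omega)
      have h2 : ∀ᵐ ω ∂P, ∑' j, W (φ (j + l)) (e l) ω < ∞ :=
        ae_lt_top (Measurable.tsum fun j => (h.Er_meas _ _ _).div_const _) h1
      filter_upwards [h2] with ω hω _
      have h3 := ENNReal.tendsto_atTop_zero_of_tsum_ne_top hω.ne
      exact (tendsto_add_atTop_iff_nat (f := fun j => W (φ j) (e l) ω) l).1 h3
    · exact Eventually.of_forall fun ω hω => absurd hω hl
  obtain ⟨ω, hω, hωE⟩ : ∃ ω, (∀ l, 0 < (e l).1 → Tendsto (fun j => W (φ j) (e l) ω) atTop (𝓝 0)) ∧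
      ω ∈ E := by
    by_contra hcon
    push Not at hcon
    refine hE (measure_mono_null (fun ω hω => ?_) (ae_iff.1 hae))
    intro h1
    exact hcon ω h1 hω
  obtain ⟨B, hB'⟩ := hB ω hωE
  refine lin_of_seq h hk hB' φ hφ fun N p q hN => ?_
  obtain ⟨l, hl⟩ := he (N, p, q)
  have h1 := hω l (by rw [hl]; exact hN)
  rw [hl] at h1
  exact h1

end

end Pool.Agent.Helper30.PG
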