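import Mathlib

/-!
# Project PG: the numbers of the gluing step
-/

set_option autoImplicit false

namespace Pool.Agent.Helper30.PG

open Filter Real
open scoped Topology

/-- `r = K ^ (C + 2)` trials with success probability `1 / K ^ C` -/
theorem pow_le_exp (C K : ℕ) (hK : 1 ≤ K) :
    (1 - 1 / (K : ℝ) ^ C) ^ (K ^ (C + 2)) ≤ Real.exp (-(K : ℝ) ^ 2) := by
  have hK' : (1 : ℝ) ≤ K := by exact_mod_cast hK
  have hK0 : (0 : ℝ) < K := by linarith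
  have h1 : 0 ≤ 1 - 1 / (K : ℝ) ^ C := by
    rw [sub_nonneg, div_le_one (by positivity)]
    exact one_le_pow₀ hK'
  have h2 : 1 - 1 / (K : ℝ) ^ C ≤ Real.exp (-(1 / (K : ℝ) ^ C)) := by
    have := Real.add_one_le_exp (-(1 / (K : ℝ) ^ C))
    linarith
  calc (1 - 1 / (K : ℝ) ^ C) ^ (K ^ (C + 2)) ≤ Real.exp (-(1 / (K : ℝ) ^ C)) ^ (K ^ (C + 2)) :=
        pow_le_pow_left₀ h1 h2 _
    _ = Real.exp (-(K : ℝ) ^ 2) := by
        rw [← Real.exp_nat_mul]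
        congr 1
        push_cast
        rw [pow_add]
        field_simp

/-- the failure event is negligible -/
theorem fail_le (C : ℕ) (A : ℝ) : ∃ K₀ : ℕ, ∀ K : ℕ, K₀ ≤ K → ∀ N : ℝ, N ≤ A * Real.exp (A * K) →
    (1 - 1 / (K : ℝ) ^ C) ^ (K ^ (C + 2)) * N ≤ 1 := by
  obtain ⟨m, hm⟩ := exists_nat_ge (|A| + 1)
  refine ⟨m + 1, fun K hK N hN => ?_⟩
  have hK1 : 1 ≤ K := by omega
  have hKm : (m : ℝ) + 1 ≤ K := by exact_mod_cast hK
  have hK' : (1 : ℝ) ≤ K := by exact_mod_cast hK1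
  have hA := le_abs_self A
  have hA0 := abs_nonneg A
  have h0 : 0 ≤ (1 - 1 / (K : ℝ) ^ C) ^ (K ^ (C + 2)) := by
    refine pow_nonneg ?_ _
    rw [sub_nonneg, div_le_one (by positivity)]
    exact one_le_pow₀ hK'
  have hN' : N ≤ Real.exp ((K : ℝ) ^ 2) := by
    refine hN.trans ?_
    have h1 : A ≤ Real.exp |A| := by
      have := Real.add_one_le_exp |A|
      linarith
    calc A * Real.exp (A * K) ≤ Real.exp |A| * Real.exp (A * K) :=
          mul_le_mul_of_nonneg_right h1 (Real.exp_pos _).le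
      _ = Real.exp (|A| + A * K) := by rw [Real.exp_add]
      _ ≤ Real.exp ((K : ℝ) ^ 2) := by
          refine Real.exp_le_exp.2 ?_
          nlinarith
  calc (1 - 1 / (K : ℝ) ^ C) ^ (K ^ (C + 2)) * N
      ≤ (1 - 1 / (K : ℝ) ^ C) ^ (K ^ (C + 2)) * Real.exp ((K : ℝ) ^ 2) :=
        mul_le_mul_of_nonneg_left hN' h0
    _ ≤ Real.exp (-(K : ℝ) ^ 2) * Real.exp ((K : ℝ) ^ 2) :=
        mul_le_mul_of_nonneg_right (pow_le_exp C K hK1) (Real.exp_pos _).le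
    _ = 1 := by rw [← Real.exp_add]; simp

/-- the shift costs less than the gain -/
theorem shift_le (C : ℕ) (C' c : ℝ) (hc : 0 < c) (hC' : 0 ≤ C') :
    ∃ K₀ : ℕ, ∀ K : ℕ, K₀ ≤ K → ∀ L : ℝ, 2 ^ K ≤ L →
      ((K ^ (C + 2) : ℕ) : ℝ) * C' *
        √(C * ((K ^ (C + 2) : ℕ) : ℝ) * (((K : ℝ) ^ C * L + C) / c)) + 2 ≤ L := by
  -- `K ^ (3 C + 6) * A ≤ 2 ^ K` for large `K`
  set A : ℝ := 4 * (C' ^ 2 * (C * ((1 + C) / c))) + 16 with hA
  have hA0 : 0 < A := by positivity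
  have hlim : Tendsto (fun K : ℕ => (K : ℝ) ^ (4 * C + 8) * (1 / 2 : ℝ) ^ K) atTop (𝓝 0) :=
    tendsto_pow_const_mul_const_pow_of_abs_lt_one _ (r := (1 / 2 : ℝ))
      (by rw [abs_of_pos (by norm_num)]; norm_num)
  obtain ⟨K₁, hK₁⟩ := eventually_atTop.1
    (hlim.eventually (eventually_le_nhds (inv_pos.2 hA0)))
  refine ⟨max K₁ 1, fun K hK L hL => ?_⟩
  have hK1 : 1 ≤ K := le_trans (le_max_right _ _) hK
  have hK' : (1 : ℝ) ≤ K := by exact_mod_cast hK1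
  have h1 := hK₁ K (le_trans (le_max_left _ _) hK)
  have h2 : A * (K : ℝ) ^ (4 * C + 8) ≤ 2 ^ K := by
    have h3 : (2 : ℝ) ^ K * (1 / 2) ^ K = 1 := by rw [← mul_pow]; norm_num
    have h4 : (0 : ℝ) < 2 ^ K := by positivity
    have h5 : A * ((K : ℝ) ^ (4 * C + 8) * (1 / 2 : ℝ) ^ K) ≤ 1 := by
      calc A * ((K : ℝ) ^ (4 * C + 8) * (1 / 2 : ℝ) ^ K) ≤ A * A⁻¹ :=
            mul_le_mul_of_nonneg_left h1 hA0.le
        _ = 1 := mul_inv_cancel₀ hA0.ne'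
    calc A * (K : ℝ) ^ (4 * C + 8) = (A * ((K : ℝ) ^ (4 * C + 8) * (1 / 2 : ℝ) ^ K)) * 2 ^ K := by
          rw [mul_assoc, mul_assoc, mul_comm ((1 / 2 : ℝ) ^ K) (2 ^ K), h3, mul_one]
      _ ≤ 1 * 2 ^ K := mul_le_mul_of_nonneg_right h5 h4.le
      _ = 2 ^ K := one_mul _
  have h3 : A * (K : ℝ) ^ (4 * C + 8) ≤ L := h2.trans hL
  have hL0 : 0 < L := lt_of_lt_of_le (by positivity) hL
  have hL1 : 1 ≤ L := le_trans (one_le_pow₀ (by norm_num)) hL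
  have hKp : (1 : ℝ) ≤ (K : ℝ) ^ (4 * C + 8) := one_le_pow₀ hK'
  have hA16 : 16 ≤ A := by
    have : 0 ≤ 4 * (C' ^ 2 * (C * ((1 + C) / c))) := by positivity
    linarith
  have hL16 : 16 ≤ L := by
    refine le_trans ?_ h3
    nlinarith
  push_cast
  -- the number under the root
  have h4 : ((K : ℝ) ^ C * L + C) / c ≤ (K : ℝ) ^ C * L * ((1 + C) / c) := by
    rw [← mul_div_assoc]
    refine div_le_div_of_nonneg_right ?_ hc.le
    have h5 : (1 : ℝ) ≤ (K : ℝ) ^ C * L := one_le_mul_of_one_le_of_one_le (one_le_pow₀ hK') hL1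
    have h6 : (0 : ℝ) ≤ C := Nat.cast_nonneg C
    nlinarith
  have h5 : (C : ℝ) * (K : ℝ) ^ (C + 2) * (((K : ℝ) ^ C * L + C) / c) ≤
      (K : ℝ) ^ (2 * C + 2) * (C * ((1 + C) / c)) * L := by
    calc (C : ℝ) * (K : ℝ) ^ (C + 2) * (((K : ℝ) ^ C * L + C) / c)
        ≤ (C : ℝ) * (K : ℝ) ^ (C + 2) * ((K : ℝ) ^ C * L * ((1 + C) / c)) :=
          mul_le_mul_of_nonneg_left h4 (by positivity)
      _ = (K : ℝ) ^ (2 * C + 2) * (C * ((1 + C) / c)) * L := by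
          rw [show 2 * C + 2 = (C + 2) + C by ring, pow_add (K : ℝ) (C + 2) C]
          ring
  have h6 : (K : ℝ) ^ (C + 2) * C' *
      √(C * (K : ℝ) ^ (C + 2) * (((K : ℝ) ^ C * L + C) / c)) ≤ L / 2 := by
    have h7 : 0 ≤ L / 2 := by positivity
    refine abs_le_of_sq_le_sq' ?_ h7 |>.2
    rw [mul_pow, mul_pow, Real.sq_sqrt (by positivity)]
    calc ((K : ℝ) ^ (C + 2)) ^ 2 * C' ^ 2 *
        (C * (K : ℝ) ^ (C + 2) * (((K : ℝ) ^ C * L + C) / c))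
        ≤ ((K : ℝ) ^ (C + 2)) ^ 2 * C' ^ 2 *
          ((K : ℝ) ^ (2 * C + 2) * (C * ((1 + C) / c)) * L) :=
          mul_le_mul_of_nonneg_left h5 (by positivity)
      _ = (C' ^ 2 * (C * ((1 + C) / c))) * (K : ℝ) ^ (4 * C + 6) * L := by
          rw [show 4 * C + 6 = (C + 2) * 2 + (2 * C + 2) by ring, pow_add (K : ℝ) ((C + 2) * 2),
            pow_mul (K : ℝ) (C + 2) 2]
          ring
      _ ≤ (C' ^ 2 * (C * ((1 + C) / c))) * (K : ℝ) ^ (4 * C + 8) * L := by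
          refine mul_le_mul_of_nonneg_right (mul_le_mul_of_nonneg_left ?_ (by positivity)) hL0.le
          exact pow_le_pow_right₀ hK' (by omega)
      _ ≤ (L / 4) * L := by
          refine mul_le_mul_of_nonneg_right ?_ hL0.le
          have h8 : 0 ≤ (K : ℝ) ^ (4 * C + 8) := by positivity
          rw [hA] at h3
          nlinarith
      _ = (L / 2) ^ 2 := by ring
  linarith

end Pool.Agent.Helper30.PG
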