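import Mathlib

/-!
# Project PG: a sublinear function which is the maximum of the increments of finitely many Lipschitz
functions is the maximum of finitely many linear functionals (note 3148, step (4))
-/

set_option autoImplicit false

namespace Pool.Agent.Helper30.PG

open Filter MeasureTheory
open scoped Topology NNReal

/-- step (4): Rademacher -/
theorem lin_of_lip {d k : ℕ} {u : (Fin d → ℝ) → ℝ} (g : Fin k → (Fin d → ℝ) → ℝ) (K : ℝ≥0)
    (hg : ∀ c, LipschitzWith K (g c)) (hsm : ∀ t : ℝ, 0 ≤ t → ∀ x, u (t • x) = t * u x)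
    (hle : ∀ c v w, g c v - g c w ≤ u (v - w)) (hex : ∀ v w, ∃ c, u (v - w) ≤ g c v - g c w) :
    ∃ L : Fin k → (Fin d → ℝ) →L[ℝ] ℝ, (∀ c x, L c x ≤ u x) ∧ ∀ x, ∃ c, L c x = u x := by
  have h1 : ∀ᵐ x : Fin d → ℝ, ∀ c, DifferentiableAt ℝ (g c) x := by
    rw [ae_all_iff]
    exact fun c => (hg c).ae_differentiableAt
  obtain ⟨w, hw⟩ := h1.exists
  set t : ℕ → ℝ := fun n => 1 / ((n : ℝ) + 1) with ht
  have htpos : ∀ n, 0 < t n := fun n => by positivity
  have ht0 : Tendsto t atTop (𝓝 0) := tendsto_one_div_add_atTop_nhds_zero_nat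
  have ht0' : Tendsto t atTop (𝓝[≠] 0) :=
    tendsto_nhdsWithin_iff.2 ⟨ht0, Eventually.of_forall fun n => (htpos n).ne'⟩
  have hlim : ∀ c x, Tendsto (fun n => (g c (w + t n • x) - g c w) / t n) atTop
      (𝓝 (fderiv ℝ (g c) w x)) := by
    intro c x
    have h2 : HasDerivAt (fun s : ℝ => g c (w + s • x)) (fderiv ℝ (g c) w x) 0 := by
      have h3 : HasFDerivAt (g c) (fderiv ℝ (g c) w) (w + (0 : ℝ) • x) := by
        rw [zero_smul, add_zero]
        exact (hw c).hasFDerivAt
      have h4 : HasDerivAt (fun s : ℝ => w + s • x) x 0 := by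
        have h5 := ((hasDerivAt_id (0 : ℝ)).smul_const x).const_add w
        simpa using h5
      exact h3.comp_hasDerivAt (0 : ℝ) h4
    rw [hasDerivAt_iff_tendsto_slope] at h2
    have h6 := h2.comp ht0'
    refine h6.congr fun n => ?_
    simp only [Function.comp, slope_def_field, sub_zero, zero_smul, add_zero]
  have hle' : ∀ c x, fderiv ℝ (g c) w x ≤ u x := by
    intro c x
    refine le_of_tendsto (hlim c x) (Eventually.of_forall fun n => ?_)
    rw [div_le_iff₀ (htpos n)]
    have h2 := hle c (w + t n • x) w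
    rw [add_sub_cancel_left, hsm _ (htpos n).le] at h2
    linarith
  refine ⟨fun c => fderiv ℝ (g c) w, hle', fun x => ?_⟩
  have h2 : ∃ᶠ n in (atTop : Filter ℕ), ∃ c, u x ≤ (g c (w + t n • x) - g c w) / t n := by
    refine Eventually.frequently (Eventually.of_forall fun n => ?_)
    obtain ⟨c, hc⟩ := hex (w + t n • x) w
    refine ⟨c, ?_⟩
    rw [le_div_iff₀ (htpos n)]
    rw [add_sub_cancel_left, hsm _ (htpos n).le] at hc
    linarith
  rw [frequently_exists] at h2
  obtain ⟨c, hc⟩ := h2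
  refine ⟨c, le_antisymm (hle' c x) ?_⟩
  by_contra h3
  push Not at h3
  exact hc ((hlim c x).eventually (eventually_lt_nhds h3) |>.mono fun n hn => not_le.2 hn)

/-- rational vectors -/
def qv {d : ℕ} (q : Fin d → ℚ) : Fin d → ℝ := fun i => (q i : ℝ)

theorem denseRange_qv {d : ℕ} : DenseRange (qv (d := d)) := by
  have h : qv (d := d) = Pi.map (fun _ : Fin d => ((↑) : ℚ → ℝ)) := rfl
  rw [h]
  exact DenseRange.piMap fun _ => Rat.denseRange_cast

/-- step (3), deterministic part: extension from the rational vectors -/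
theorem lin_of_rat {d k : ℕ} {u : (Fin d → ℝ) → ℝ} {C : ℝ} (g : Fin k → (Fin d → ℚ) → ℝ)
    (huc : Continuous u) (hub : ∀ x, u x ≤ C * ‖x‖)
    (hsm : ∀ t : ℝ, 0 ≤ t → ∀ x, u (t • x) = t * u x)
    (hle : ∀ c v w, g c v - g c w ≤ u (qv v - qv w))
    (hex : ∀ v w, ∃ c, u (qv v - qv w) ≤ g c v - g c w) :
    ∃ L : Fin k → (Fin d → ℝ) →L[ℝ] ℝ, (∀ c x, L c x ≤ u x) ∧ ∀ x, ∃ c, L c x = u x := by
  have hinj : Function.Injective (qv (d := d)) := by
    intro a b hab
    funext i
    have := congrFun hab i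
    simpa [qv] using this
  have h1 : ∀ c, ∃ f : (Fin d → ℝ) → ℝ, LipschitzWith C.toNNReal f ∧ ∀ v, f (qv v) = g c v := by
    intro c
    set f₀ : (Fin d → ℝ) → ℝ := fun x => g c (Function.invFun qv x) with hf₀
    have h2 : ∀ v, f₀ (qv v) = g c v := fun v => by
      rw [hf₀]
      simp only
      rw [Function.leftInverse_invFun hinj v]
    have h3 : LipschitzOnWith C.toNNReal f₀ (Set.range qv) := by
      refine LipschitzOnWith.of_dist_le_mul ?_
      rintro _ ⟨v, rfl⟩ _ ⟨w, rfl⟩
      rw [h2, h2, Real.dist_eq, dist_eq_norm]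
      have h4 : ∀ v w, g c v - g c w ≤ (C.toNNReal : ℝ) * ‖qv v - qv w‖ := fun v w =>
        (hle c v w).trans ((hub _).trans
          (mul_le_mul_of_nonneg_right (Real.le_coe_toNNReal C) (norm_nonneg _)))
      rw [abs_le]
      refine ⟨?_, h4 v w⟩
      have h5 := h4 w v
      rw [norm_sub_rev] at h5
      linarith
    obtain ⟨f, hf1, hf2⟩ := h3.extend_real
    exact ⟨f, hf1, fun v => by rw [← hf2 ⟨v, rfl⟩, h2]⟩
  choose f hf1 hf2 using h1
  have hdense : DenseRange (fun p : (Fin d → ℚ) × (Fin d → ℚ) => (qv p.1, qv p.2)) :=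
    denseRange_qv.prodMap denseRange_qv
  refine lin_of_lip f C.toNNReal hf1 hsm (fun c v w => ?_) (fun v w => ?_)
  · have hcl : IsClosed {p : (Fin d → ℝ) × (Fin d → ℝ) | f c p.1 - f c p.2 ≤ u (p.1 - p.2)} := by
      refine isClosed_le ?_ (huc.comp (continuous_fst.sub continuous_snd))
      exact ((hf1 c).continuous.comp continuous_fst).sub ((hf1 c).continuous.comp continuous_snd)
    have h2 := hdense.closure_range
    have h3 : closure (Set.range fun p : (Fin d → ℚ) × (Fin d → ℚ) => (qv p.1, qv p.2)) ⊆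
        {p : (Fin d → ℝ) × (Fin d → ℝ) | f c p.1 - f c p.2 ≤ u (p.1 - p.2)} := by
      refine closure_minimal ?_ hcl
      rintro _ ⟨p, rfl⟩
      simp only [Set.mem_ofPred_eq, hf2]
      exact hle c p.1 p.2
    rw [h2] at h3
    exact h3 (Set.mem_univ (v, w))
  · have hcl : IsClosed {p : (Fin d → ℝ) × (Fin d → ℝ) | ∃ c, u (p.1 - p.2) ≤
        f c p.1 - f c p.2} := by
      rw [Set.ofPred_exists]
      refine isClosed_iUnion_of_finite fun c => ?_
      refine isClosed_le (huc.comp (continuous_fst.sub continuous_snd)) ?_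
      exact ((hf1 c).continuous.comp continuous_fst).sub ((hf1 c).continuous.comp continuous_snd)
    have h2 := hdense.closure_range
    have h3 : closure (Set.range fun p : (Fin d → ℚ) × (Fin d → ℚ) => (qv p.1, qv p.2)) ⊆
        {p : (Fin d → ℝ) × (Fin d → ℝ) | ∃ c, u (p.1 - p.2) ≤ f c p.1 - f c p.2} := by
      refine closure_minimal ?_ hcl
      rintro _ ⟨p, rfl⟩
      simp only [Set.mem_ofPred_eq, hf2]
      exact hex p.1 p.2
    rw [h2] at h3
    exact h3 (Set.mem_univ (v, w))

end Pool.Agent.Helper30.PG
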