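import Pool.Agent.Helper97.PG.Tails

/-!
# Project PG: the second road: join theorem + 'the time constant is not the maximum of finitely many
linear functionals' give infinitely many geodesic rays from `0` (any law, any dimension)
-/

set_option autoImplicit false

namespace Pool.Agent.Helper30.PG

open MeasureTheory ProbabilityTheory Filter Pool.Agent.Helper79.GR Pool.Agent.Helper79.GQ
open Pool.Agent.Helper41.JT Pool.Agent.Helper97.PG
open scoped Topology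

variable {Ω : Type*} [MeasurableSpace Ω] {P : Measure Ω} {d : ℕ} {S : Ω → V d → V d → ℝ}
  {u : (Fin d → ℝ) → ℝ}

theorem Horo.pos {S : V d → V d → ℝ} {k : ℕ} {B : Fin k → V d → V d → ℝ} (h : Horo S B)
    (hd : 1 ≤ d) : 0 < k := by
  obtain ⟨c, -⟩ := h.lim 0 0 (fun r => r • (sv (⟨0, hd⟩, true) : V d)) (by
    simp_rw [n1_nsmul, n1_sv, mul_one]
    exact tendsto_natCast_atTop_atTop)
  exact lt_of_le_of_lt (Nat.zero_le _) c.2

/-- **second road**: `c` are the weights, `c'` the capped weights (`c' = c` for laws on `[a, b]`),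
`S = T c'` -/
theorem infinite_rays (hd : 1 ≤ d) (hS : Stat P S u) {c c' : Ω → Edge d → ℝ}
    (hc : ∀ᵐ ω ∂P, Ok (c ω)) (hc' : ∀ᵐ ω ∂P, Ok (c' ω)) (hST : ∀ᵐ ω ∂P, S ω = T (c' ω))
    (hJ : ∀ᵐ ω ∂P, {h : ℕ → St d | RayF (c ω) 0 h}.Finite →
      ∀ x g, RayF (c ω) x g → Join (c ω) x 0 g)
    (hcap : ∀ᵐ ω ∂P, ∀ z h, RayF (c' ω) z h →
      ∃ m : ℕ, RayF (c ω) (pt z h m) (fun i => h (m + i)))
    (hnp : ∀ G : Finset ((Fin d → ℝ) →L[ℝ] ℝ), (∀ ρ ∈ G, ∀ x, ρ x ≤ u x) →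
      (∀ x, ∃ ρ ∈ G, ρ x = u x) → False) :
    ∀ᵐ ω ∂P, {h : ℕ → St d | RayF (c ω) 0 h}.Infinite := by
  classical
  set E : ℕ → Set Ω := fun k => {ω | ∃ B : Fin k → V d → V d → ℝ, Horo (S ω) B} with hE
  have h0 : ∀ k, P (E k) = 0 := by
    intro k
    by_contra hk
    have hk0 : 0 < k := by
      obtain ⟨ω, B, hB⟩ := nonempty_of_measure_ne_zero hk
      exact hB.pos hd
    obtain ⟨L, hL1, hL2⟩ := lin_of_horo hS hk hk0 fun ω hω => hω
    refine hnp (Finset.univ.image L) (fun ρ hρ x => ?_) (fun x => ?_)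
    · obtain ⟨i, -, rfl⟩ := Finset.mem_image.1 hρ
      exact hL1 i x
    · obtain ⟨i, hi⟩ := hL2 x
      exact ⟨L i, Finset.mem_image_of_mem _ (Finset.mem_univ _), hi⟩
  have h1 : ∀ᵐ ω ∂P, ω ∉ ⋃ k, E k := by
    rw [ae_iff]
    simp only [not_not]
    exact measure_iUnion_null h0
  filter_upwards [hc, hc', hST, hJ, hcap, h1] with ω w1 w2 w3 w4 w5 w6
  by_contra hfin
  rw [Set.not_infinite] at hfin
  obtain ⟨k, B, hB⟩ := horo_of_join w1 w2 hfin (w4 hfin) w5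
  refine w6 (Set.mem_iUnion.2 ⟨k, B, ?_⟩)
  rw [w3]
  exact hB

end Pool.Agent.Helper30.PG
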