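import Pool.Agent.Helper67.PG.L1
import Pool.Agent.Helper79.GQ.LH
import Pool.Agent.Helper30.PG.Coc1

/-!
# Project PG: covariant integrable metrics on an iid field are `Stat`
-/

set_option autoImplicit false

namespace Pool.Agent.Helper30.PG

open MeasureTheory ProbabilityTheory Filter Pool.Agent.Helper79.GR Pool.Agent.Helper79.GQ
open Pool.Agent.Helper67.LL
open scoped Topology

variable {Ω : Type*} [MeasurableSpace Ω] {P : Measure Ω} {d : ℕ} {X : Edge d → Ω → ℝ}
  {ν : Measure ℝ} {S : (Edge d → ℝ) → V d → V d → ℝ}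

private theorem tc_continuous {a b : ℝ} {m : V d → ℝ} (h : SubM a b m) : Continuous (tc m) := by
  have hn : Continuous fun x : Fin d → ℝ => nr x := by
    unfold nr
    fun_prop
  rw [continuous_iff_continuousAt]
  intro x
  rw [ContinuousAt, tendsto_iff_dist_tendsto_zero]
  have h1 : Tendsto (fun y : Fin d → ℝ => b * nr (y - x)) (𝓝 x) (𝓝 0) := by
    have h2 : Continuous fun y : Fin d → ℝ => b * nr (y - x) :=
      continuous_const.mul (hn.comp (continuous_id.sub continuous_const))
    have h3 := h2.tendsto x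
    rw [sub_self, nr_zero, mul_zero] at h3
    exact h3
  refine squeeze_zero (fun y => dist_nonneg) (fun y => ?_) h1
  rw [Real.dist_eq]
  exact tc_lip h y x

/-- a covariant integrable metric on an iid field is stationary and has a time constant -/
theorem stat_of_cov {a b : ℝ} (h : Iid P X ν) (hc : Cov P X S)
    (hm : ∀ x y, Measurable fun c => S c x y)
    (hsymm : ∀ x y, ∀ᵐ ω ∂P, S (cf X ω) x y = S (cf X ω) y x)
    (hsub : SubM a b (mS P X S)) :
    ∃ S' : Ω → V d → V d → ℝ, Stat P S' (tc (mS P X S)) ∧ ∀ᵐ ω ∂P, S' ω = S (cf X ω) := by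
  classical
  have hprob := h.prob
  have hcf : Measurable (cf X) := h.measurable_cf
  -- the exceptional set
  have h1 : ∀ᵐ ω ∂P, (∀ x y z, S (cf X ω) x z ≤ S (cf X ω) x y + S (cf X ω) y z) ∧
      (∀ x y, 0 ≤ S (cf X ω) x y) ∧ ∀ x y, S (cf X ω) x y = S (cf X ω) y x := by
    have e1 : ∀ᵐ ω ∂P, ∀ x y z, S (cf X ω) x z ≤ S (cf X ω) x y + S (cf X ω) y z := by
      rw [ae_all_iff]; intro x
      rw [ae_all_iff]; intro y
      rw [ae_all_iff]; intro z
      exact hc.tri x y z
    have e2 : ∀ᵐ ω ∂P, ∀ x y, 0 ≤ S (cf X ω) x y := by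
      rw [ae_all_iff]; intro x
      rw [ae_all_iff]; intro y
      exact hc.nn x y
    have e3 : ∀ᵐ ω ∂P, ∀ x y, S (cf X ω) x y = S (cf X ω) y x := by
      rw [ae_all_iff]; intro x
      rw [ae_all_iff]; intro y
      exact hsymm x y
    filter_upwards [e1, e2, e3] with ω w1 w2 w3
    exact ⟨w1, w2, w3⟩
  set N : Set Ω := toMeasurable P {ω | ¬ ((∀ x y z, S (cf X ω) x z ≤ S (cf X ω) x y +
    S (cf X ω) y z) ∧ (∀ x y, 0 ≤ S (cf X ω) x y) ∧ ∀ x y, S (cf X ω) x y = S (cf X ω) y x)}
    with hN
  have hNm : MeasurableSet N := measurableSet_toMeasurable _ _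
  have hN0 : P N = 0 := by
    rw [hN, measure_toMeasurable]
    exact ae_iff.1 h1
  have hNae : ∀ᵐ ω ∂P, ω ∉ N := by
    rw [ae_iff]
    simpa using hN0
  have hgood : ∀ ω, ω ∉ N → (∀ x y z, S (cf X ω) x z ≤ S (cf X ω) x y + S (cf X ω) y z) ∧
      (∀ x y, 0 ≤ S (cf X ω) x y) ∧ ∀ x y, S (cf X ω) x y = S (cf X ω) y x := by
    intro ω hω
    by_contra hcon
    exact hω (subset_toMeasurable _ _ hcon)
  set S' : Ω → V d → V d → ℝ := fun ω => if ω ∈ N then 0 else S (cf X ω) with hS'
  have hS'ae : ∀ᵐ ω ∂P, S' ω = S (cf X ω) := by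
    filter_upwards [hNae] with ω hω
    simp only [hS', if_neg hω]
  have hcase : ∀ (ω : Ω) (p : (V d → V d → ℝ) → Prop), p 0 → (ω ∉ N → p (S (cf X ω))) →
      p (S' ω) := by
    intro ω p h0 h2
    by_cases hω : ω ∈ N
    · simp only [hS', if_pos hω]
      exact h0
    · simp only [hS', if_neg hω]
      exact h2 hω
  have hint : ∀ x y, Integrable (fun ω => S' ω x y) P := fun x y =>
    (hc.intg h x y).congr (hS'ae.mono fun ω hω => by simp only [hω])
  refine ⟨S', ?_, hS'ae⟩
  refine
    { prob := hprob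
      meas := fun x y => ?_
      nonneg := fun ω x y => ?_
      symm := fun ω x y => ?_
      tri := fun ω x y z => ?_
      int := hint
      stat := fun z => ?_
      one := fun x => ?_
      low := fun x => ?_
      cont := tc_continuous hsub
      bdd := ?_
      smul := fun t ht x => tc_smul hsub t ht x }
  · have h2 : (fun ω => S' ω x y) = fun ω => if ω ∈ N then (0 : ℝ) else S (cf X ω) x y := by
      funext ω
      simp only [hS']
      by_cases hω : ω ∈ N
      · simp [hω]
      · simp [hω]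
    rw [h2]
    exact Measurable.ite hNm measurable_const ((hm x y).comp hcf)
  · exact hcase ω (fun S => 0 ≤ S x y) le_rfl fun hω => (hgood ω hω).2.1 x y
  · exact hcase ω (fun S => S x y = S y x) rfl fun hω => (hgood ω hω).2.2 x y
  · exact hcase ω (fun S => S x z ≤ S x y + S y z) (by simp) fun hω => (hgood ω hω).1 x y z
  · -- stationarity
    have hproc : Measurable fun (c : Edge d → ℝ) (p : V d × V d) => S c p.1 p.2 :=
      measurable_pi_lambda _ fun p => hm _ _
    have e1 : P.map (fun ω (p : V d × V d) => S' ω (p.1 + z) (p.2 + z)) =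
        P.map ((fun (c : Edge d → ℝ) (p : V d × V d) => S c p.1 p.2) ∘
          fun ω e => X (sh z e) ω) := by
      refine Measure.map_congr ?_
      have h3 : ∀ᵐ ω ∂P, ∀ p : V d × V d, S (fun e => X (sh z e) ω) p.1 p.2 =
          S (cf X ω) (p.1 + z) (p.2 + z) := by
        rw [ae_all_iff]
        exact fun p => hc.cov z p.1 p.2
      filter_upwards [hS'ae, h3] with ω w1 w2
      funext p
      simp only [Function.comp]
      rw [w1, w2 p]
    have e2 : P.map (fun ω (p : V d × V d) => S' ω p.1 p.2) =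
        P.map ((fun (c : Edge d → ℝ) (p : V d × V d) => S c p.1 p.2) ∘ cf X) := by
      refine Measure.map_congr ?_
      filter_upwards [hS'ae] with ω w1
      funext p
      simp only [Function.comp]
      rw [w1]
    rw [e1, e2, ← Measure.map_map hproc (h.mp z).measurable, ← Measure.map_map hproc hcf,
      (h.mp z).map_eq]
  · -- (L1)
    refine (law_L1 hc h x _ (tendsto_nsmul hsub x)).congr fun s => ?_
    refine integral_congr_ae (hS'ae.mono fun ω hω => ?_)
    simp only [hω]
  · -- the time constant is below the mean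
    have h2 := mul_tc_le hsub x 1
    rw [Nat.cast_one, one_mul, one_smul] at h2
    refine h2.trans (le_of_eq ?_)
    unfold mS
    exact integral_congr_ae (hS'ae.mono fun ω hω => by simp only [hω])
  · refine ⟨|b| * d, fun x => ?_⟩
    have h2 : tc (mS P X S) x ≤ b * nr x := by
      have h3 := tc_lip hsub x 0
      have h4 : tc (mS P X S) 0 = 0 := by
        have h5 := tc_smul hsub 0 le_rfl 0
        rwa [zero_smul, zero_mul] at h5
      rw [h4, sub_zero, sub_zero] at h3
      exact (le_abs_self _).trans h3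
    calc tc (mS P X S) x ≤ b * nr x := h2
      _ ≤ |b| * nr x := mul_le_mul_of_nonneg_right (le_abs_self b) (nr_nonneg x)
      _ ≤ |b| * (d * ‖x‖) := mul_le_mul_of_nonneg_left (nr_le_norm x) (abs_nonneg b)
      _ = |b| * d * ‖x‖ := by ring

/-- the passage time for weights in `[a, b]` -/
theorem stat_T {a b : ℝ} (h : Env P X ν a b) :
    ∃ S' : Ω → V d → V d → ℝ, Stat P S' (tc (mm P X)) ∧ ∀ᵐ ω ∂P, S' ω = T (cf X ω) :=
  stat_of_cov (S := fun c => T c) (Iid.of_env h) (cov_T h) (fun x y => measurable_T_cfg x y)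
    (fun x y => Eventually.of_forall fun ω => T_symm (cf X ω) x y) (subM_mm h)

end Pool.Agent.Helper30.PG
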