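import Pool.Agent.Helper30.PG.Road2
import Pool.Agent.Helper30.PG.StatOf
import Pool.Agent.Helper41.JT.All

/-!
# Project PG: second road for weights in `[a, b]`, `a > 0`
-/

set_option autoImplicit false

namespace Pool.Agent.Helper30.PG

open MeasureTheory ProbabilityTheory Filter Pool.Agent.Helper79.GR Pool.Agent.Helper79.GQ
open Pool.Agent.Helper41.JT Pool.Agent.Helper97.PG

variable {Ω : Type*} [MeasurableSpace Ω] {P : Measure Ω} {d : ℕ} {X : Edge d → Ω → ℝ}
  {ν : Measure ℝ}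

/-- finitely many rays: `Few` -/
theorem few_of_finite {c : Edge d → ℝ} {y : V d} (h0 : y = 0)
    (hfin : {h : ℕ → St d | RayF c y h}.Finite) : ∃ K, Few c y K := by
  subst h0
  classical
  refine ⟨hfin.toFinset.card + 1, ?_⟩
  by_contra hF
  unfold Few at hF
  push Not at hF
  obtain ⟨m, hm⟩ := hF
  obtain ⟨s, hinj, hs⟩ := konig_many c (hfin.toFinset.card + 1) m fun n => by
    obtain ⟨W, hW, hinj⟩ := hm n
    exact ⟨W, hW, hinj⟩
  have h1 : (Finset.univ.image s) ⊆ hfin.toFinset := by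
    intro g hg
    obtain ⟨i, -, rfl⟩ := Finset.mem_image.1 hg
    rw [Set.Finite.mem_toFinset]
    exact hs i
  have h2 := Finset.card_le_card h1
  rw [Finset.card_image_of_injective _ hinj, Finset.card_univ, Fintype.card_fin] at h2
  omega

/-- **all dimensions, laws on `[a, b]`**: no polytope implies infinitely many rays -/
theorem infinite_rays_bd {a b : ℝ} (hd : 1 ≤ d) (h : Env P X ν a b) (hnu : ∀ t, ν {t} = 0)
    (hnp : ∀ G : Finset ((Fin d → ℝ) →L[ℝ] ℝ), (∀ ρ ∈ G, ∀ x, ρ x ≤ tc (mm P X) x) →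
      (∀ x, ∃ ρ ∈ G, ρ x = tc (mm P X) x) → False) :
    ∀ᵐ ω ∂P, {s : ℕ → St d | Ray (cf X ω) s}.Infinite := by
  obtain ⟨S', hS, hST⟩ := stat_T h
  have hOk : ∀ᵐ ω ∂P, Ok (cf X ω) := Eventually.of_forall fun ω => Ok.of_bd (h.cf_bd ω)
  have hJ : ∀ᵐ ω ∂P, ∀ K, Few (cf X ω) 0 K → ∀ (x : V d) (g : ℕ → St d), RayF (cf X ω) x g →
      Join (cf X ω) x 0 g := by
    rw [ae_all_iff]
    exact fun K => join_bd h hnu 0 K
  refine infinite_rays (c := fun ω => cf X ω) (c' := fun ω => cf X ω) hd hS hOk hOk hST ?_ ?_ hnp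
  · filter_upwards [hJ] with ω w1 hfin x g hg
    obtain ⟨K, hK⟩ := few_of_finite rfl hfin
    exact w1 K hK x g hg
  · refine Eventually.of_forall fun ω z s hs => ⟨0, ?_⟩
    have e1 : pt z s 0 = z := rfl
    simp only [e1, zero_add]
    exact hs

end Pool.Agent.Helper30.PG
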